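import Mathlib

/-!
# Adaptive two-probe bitprobe schemes

The definitions of the problem: universe `Fin m`, three bit tables with `a`, `b`, `c` cells,
three positions for each element of the universe, and a filling of the three tables for every
subset of the universe of size at most `n`.
-/

namespace Pool.Agent.H.MP_b7335c_lc

/-- An adaptive two-probe scheme for subsets of size at most `n` of the universe `Fin m`, with
bit tables of `a`, `b` and `c` cells.  The fields `posA`, `posB`, `posC` are the positions of the
elements in the three tables; `fillA S`, `fillB S`, `fillC S` are the contents of the three tables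
chosen by the storage part for the set `S` (only the sets of size at most `n` matter). -/
structure Scheme (n m a b c : ℕ) where
  posA : Fin m → Fin a
  posB : Fin m → Fin b
  posC : Fin m → Fin c
  fillA : {S : Finset (Fin m) // S.card ≤ n} → Fin a → Bool
  fillB : {S : Finset (Fin m) // S.card ≤ n} → Fin b → Bool
  fillC : {S : Finset (Fin m) // S.card ≤ n} → Fin c → Bool

/-- The answer to the query `x` when the set `S` is stored: read the bit of `x` in the first
table; if it is `0` (`false`) return the bit of `x` in the second table, otherwise return the bit
of `x` in the third table. -/
def Scheme.answer {n m a b c : ℕ} (σ : Scheme n m a b c)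
    (S : {S : Finset (Fin m) // S.card ≤ n}) (x : Fin m) : Bool :=
  if σ.fillA S (σ.posA x) = false then σ.fillB S (σ.posB x) else σ.fillC S (σ.posC x)

/-- The scheme is correct if for every admissible set `S` and every query `x` the answer is
`1` (`true`) exactly when `x ∈ S`. -/
def Scheme.Correct {n m a b c : ℕ} (σ : Scheme n m a b c) : Prop :=
  ∀ (S : {S : Finset (Fin m) // S.card ≤ n}) (x : Fin m), σ.answer S x = true ↔ x ∈ S.1

/-- `SpaceOK n m s`: there is a correct adaptive two-probe scheme for subsets of size at most `n`
of a universe of size `m` which uses `s` bits in total. -/
def SpaceOK (n m s : ℕ) : Prop :=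
  ∃ a b c : ℕ, a + b + c = s ∧ ∃ σ : Scheme n m a b c, σ.Correct

/-- `s_A(n, m, 2)`: the minimum space of a correct adaptive two-probe scheme. -/
noncomputable def sA (n m : ℕ) : ℕ := sInf {s : ℕ | SpaceOK n m s}

end Pool.Agent.H.MP_b7335c_lc
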