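import Mathlib
import Pool.Agent.H.MP_b7335c_lc.Defs

/-!
# Strong gadgets

A gadget is an assignment of positions which satisfies three Horn conditions; these conditions
pass to products and to sub-universes and guarantee a correct scheme for sets of size at most 2.
-/

namespace Pool.Agent.H.MP_b7335c_lc

/-- Position assignment satisfying the Horn conditions. -/
structure Gadget (E A B C : Type) where
  pa : E → A
  pb : E → B
  pc : E → C
  matchB : ∀ x y, pa x = pa y → pb x = pb y → x = y
  matchC : ∀ x y, pa x = pa y → pc x = pc y → x = y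
  tpp : ∀ x y z, pb y = pb x → pc z = pc x → pa y = pa z → pa y = pa x
  free : ∀ x y z w u v, pa z = pa x → pb z = pb y → pa w = pa y → pc w = pc x →
    pa u = pa v → pb u = pb x → pc v = pc y → pa x = pa y

namespace Gadget

variable {E A B C E' A' B' C' : Type}

/-- The product of two gadgets. -/
def prod (g : Gadget E A B C) (h : Gadget E' A' B' C') :
    Gadget (E × E') (A × A') (B × B') (C × C') where
  pa := Prod.map g.pa h.pa
  pb := Prod.map g.pb h.pb
  pc := Prod.map g.pc h.pc
  matchB := by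
    rintro ⟨x, x'⟩ ⟨y, y'⟩ h1 h2
    simp only [Prod.map_apply, Prod.mk.injEq] at *
    exact ⟨g.matchB _ _ h1.1 h2.1, h.matchB _ _ h1.2 h2.2⟩
  matchC := by
    rintro ⟨x, x'⟩ ⟨y, y'⟩ h1 h2
    simp only [Prod.map_apply, Prod.mk.injEq] at *
    exact ⟨g.matchC _ _ h1.1 h2.1, h.matchC _ _ h1.2 h2.2⟩
  tpp := by
    rintro ⟨x, x'⟩ ⟨y, y'⟩ ⟨z, z'⟩ h1 h2 h3
    simp only [Prod.map_apply, Prod.mk.injEq] at *
    exact ⟨g.tpp _ _ _ h1.1 h2.1 h3.1, h.tpp _ _ _ h1.2 h2.2 h3.2⟩
  free := by
    rintro ⟨x, x'⟩ ⟨y, y'⟩ ⟨z, z'⟩ ⟨w, w'⟩ ⟨u, u'⟩ ⟨v, v'⟩ h1 h2 h3 h4 h5 h6 h7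
    simp only [Prod.map_apply, Prod.mk.injEq] at *
    exact ⟨g.free _ _ _ _ _ _ h1.1 h2.1 h3.1 h4.1 h5.1 h6.1 h7.1,
      h.free _ _ _ _ _ _ h1.2 h2.2 h3.2 h4.2 h5.2 h6.2 h7.2⟩

/-- Restriction of the universe (along an injection) and injective relabelling of the cells. -/
def pull (g : Gadget E A B C) (f : E' → E) (hf : Function.Injective f)
    (fa : A → A') (ha : Function.Injective fa) (fb : B → B') (hb : Function.Injective fb)
    (fc : C → C') (hc : Function.Injective fc) : Gadget E' A' B' C' where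
  pa := fun e => fa (g.pa (f e))
  pb := fun e => fb (g.pb (f e))
  pc := fun e => fc (g.pc (f e))
  matchB := fun _ _ h1 h2 => hf (g.matchB _ _ (ha h1) (hb h2))
  matchC := fun _ _ h1 h2 => hf (g.matchC _ _ (ha h1) (hc h2))
  tpp := fun _ _ _ h1 h2 h3 => congrArg fa (g.tpp _ _ _ (hb h1) (hc h2) (ha h3))
  free := fun _ _ _ _ _ _ h1 h2 h3 h4 h5 h6 h7 =>
    congrArg fa (g.free _ _ _ _ _ _ (ha h1) (hb h2) (ha h3) (hc h4) (ha h5) (hb h6) (hc h7))

/-- One block which is a perfect matching between `W` and `W`. -/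
def single (W : Type) : Gadget W Unit W W where
  pa := fun _ => ()
  pb := id
  pc := id
  matchB := fun _ _ _ h => h
  matchC := fun _ _ _ h => h
  tpp := fun _ _ _ _ _ _ => rfl
  free := fun _ _ _ _ _ _ _ _ _ _ _ _ _ => rfl

/-- Exchange the roles of the second and the third table. -/
def swap (g : Gadget E A B C) : Gadget E A C B where
  pa := g.pa
  pb := g.pc
  pc := g.pb
  matchB := g.matchC
  matchC := g.matchB
  tpp := fun x y z h1 h2 h3 => h3.trans (g.tpp x z y h2 h1 h3.symm)
  free := fun x y z w u v h1 h2 h3 h4 h5 h6 h7 =>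
    (g.free y x w z v u h3 h4 h1 h2 h5.symm h7 h6).symm

/-- The block `i` meets the cell `b` of the second table. -/
def inB (g : Gadget E A B C) (i : A) (b : B) : Prop := ∃ e, g.pa e = i ∧ g.pb e = b

/-- The block `i` meets the cell `c` of the third table. -/
def inC (g : Gadget E A B C) (i : A) (c : C) : Prop := ∃ e, g.pa e = i ∧ g.pc e = c

/-- There is a correct filling of the tables for the pair `x`, `y`. -/
def Good (g : Gadget E A B C) (x y : E) : Prop :=
  ∃ (α : A → Bool) (β : B → Bool) (γ : C → Bool), ∀ e : E,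
    ((if α (g.pa e) = false then β (g.pb e) else γ (g.pc e)) = true ↔ (e = x ∨ e = y))

theorem Good.symm {g : Gadget E A B C} {x y : E} (h : g.Good x y) : g.Good y x := by
  obtain ⟨α, β, γ, h⟩ := h
  exact ⟨α, β, γ, fun e => (h e).trans or_comm⟩

open Classical in
/-- The case `BB`. -/
theorem good_BB (g : Gadget E A B C) (x y : E)
    (h1 : g.inB (g.pa x) (g.pb y) → g.pa x = g.pa y)
    (h2 : g.inB (g.pa y) (g.pb x) → g.pa x = g.pa y) : g.Good x y := by
  refine ⟨fun i => decide ((i ≠ g.pa x ∧ i ≠ g.pa y) ∧ (g.inB i (g.pb x) ∨ g.inB i (g.pb y))),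
    fun b => decide (b = g.pb x ∨ b = g.pb y), fun _ => false, fun e => ?_⟩
  have hmem : g.inB (g.pa e) (g.pb e) := ⟨e, rfl, rfl⟩
  by_cases hi : (g.pa e ≠ g.pa x ∧ g.pa e ≠ g.pa y) ∧
      (g.inB (g.pa e) (g.pb x) ∨ g.inB (g.pa e) (g.pb y))
  · simp only [hi, decide_true, ne_eq, not_false_eq_true, and_self]
    simp only [Bool.true_eq_false, ↓reduceIte, Bool.false_eq_true, false_iff, not_or]
    exact ⟨fun h => hi.1.1 (by rw [h]), fun h => hi.1.2 (by rw [h])⟩
  · rw [if_pos (by simpa using hi)]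
    simp only [decide_eq_true_eq]
    constructor
    · intro hb
      have hor : g.pa e = g.pa x ∨ g.pa e = g.pa y := by
        by_contra hcon
        rw [not_or] at hcon
        apply hi
        refine ⟨hcon, ?_⟩
        rcases hb with hb | hb
        · left; rw [← hb]; exact hmem
        · right; rw [← hb]; exact hmem
      rcases hor with ha | ha <;> rcases hb with hb | hb
      · left; exact g.matchB _ _ ha hb
      · right
        have : g.inB (g.pa x) (g.pb y) := ⟨e, ha, hb⟩
        exact g.matchB _ _ (ha.trans (h1 this)) hb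
      · left
        have : g.inB (g.pa y) (g.pb x) := ⟨e, ha, hb⟩
        exact g.matchB _ _ (ha.trans (h2 this).symm) hb
      · right; exact g.matchB _ _ ha hb
    · rintro (h | h)
      · left; rw [h]
      · right; rw [h]

/-- The case `CC`, by symmetry. -/
theorem good_of_swap (g : Gadget E A B C) (x y : E) (h : g.swap.Good x y) : g.Good x y := by
  obtain ⟨α, β, γ, h⟩ := h
  refine ⟨fun i => !(α i), γ, β, fun e => ?_⟩
  rw [← h e]
  show _ ↔ (if α (g.pa e) = false then β (g.pc e) else γ (g.pb e)) = true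
  cases hα : α (g.pa e) <;> simp [hα]

open Classical in
/-- The case `BC`. -/
theorem good_BC (g : Gadget E A B C) (x y : E) (hne : g.pa x ≠ g.pa y)
    (h : ∀ i, g.inB i (g.pb x) → ¬ g.inC i (g.pc y)) : g.Good x y := by
  refine ⟨fun i => decide (i = g.pa y ∨ (i ≠ g.pa x ∧ g.inB i (g.pb x))),
    fun b => decide (b = g.pb x), fun c => decide (c = g.pc y), fun e => ?_⟩
  have hmemB : g.inB (g.pa e) (g.pb e) := ⟨e, rfl, rfl⟩
  have hmemC : g.inC (g.pa e) (g.pc e) := ⟨e, rfl, rfl⟩
  by_cases hi : g.pa e = g.pa y ∨ (g.pa e ≠ g.pa x ∧ g.inB (g.pa e) (g.pb x))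
  · rw [if_neg (by show ¬ (decide _ = false); rw [decide_eq_true hi]; simp)]
    simp only [decide_eq_true_eq]
    constructor
    · intro hc
      right
      rcases hi with hi | hi
      · exact g.matchC _ _ hi hc
      · exact absurd (hc ▸ hmemC) (h _ hi.2)
    · rintro (he | he)
      · subst he
        rcases hi with hi | hi
        · exact absurd hi hne
        · exact absurd rfl hi.1
      · rw [he]
  · rw [if_pos (by simpa using hi)]
    rw [not_or] at hi
    simp only [decide_eq_true_eq]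
    constructor
    · intro hb
      left
      have hx : g.pa e = g.pa x := by
        by_contra hcon
        exact hi.2 ⟨hcon, hb ▸ hmemB⟩
      exact g.matchB _ _ hx hb
    · rintro (he | he)
      · rw [he]
      · exact absurd (by rw [he]) hi.1

/-- Every pair of elements has a correct filling. -/
theorem good (g : Gadget E A B C) (x y : E) : g.Good x y := by
  by_cases hab : g.pa x = g.pa y
  · exact g.good_BB x y (fun _ => hab) (fun _ => hab)
  by_cases hP : g.inB (g.pa x) (g.pb y)
  · by_cases hT : g.inC (g.pa y) (g.pc x)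
    · -- `BC` works
      refine g.good_BC x y hab ?_
      rintro i ⟨u, hu1, hu2⟩ ⟨v, hv1, hv2⟩
      obtain ⟨z, hz1, hz2⟩ := hP
      obtain ⟨w, hw1, hw2⟩ := hT
      exact hab (g.free x y z w u v hz1 hz2 hw1 hw2 (hu1.trans hv1.symm) hu2 hv2)
    · -- `CC` works
      have hR : ¬ g.inC (g.pa x) (g.pc y) := by
        rintro ⟨z, hz1, hz2⟩
        obtain ⟨w, hw1, hw2⟩ := hP
        exact hab (hw1.symm.trans (g.tpp y w z hw2 hz2 (hw1.trans hz1.symm)))
      exact g.good_of_swap x y (g.swap.good_BB x y (fun h => absurd h hR) (fun h => absurd h hT))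
  · by_cases hQ : g.inB (g.pa y) (g.pb x)
    · by_cases hR : g.inC (g.pa x) (g.pc y)
      · -- `CB` works
        refine (g.good_BC y x (fun h => hab h.symm) ?_).symm
        rintro i ⟨u, hu1, hu2⟩ ⟨v, hv1, hv2⟩
        obtain ⟨z, hz1, hz2⟩ := hQ
        obtain ⟨w, hw1, hw2⟩ := hR
        exact hab (g.free y x z w u v hz1 hz2 hw1 hw2 (hu1.trans hv1.symm) hu2 hv2).symm
      · have hT : ¬ g.inC (g.pa y) (g.pc x) := by
          rintro ⟨z, hz1, hz2⟩
          obtain ⟨w, hw1, hw2⟩ := hQ
          exact hab (hw1.symm.trans (g.tpp x w z hw2 hz2 (hw1.trans hz1.symm))).symm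
        exact g.good_of_swap x y
          (g.swap.good_BB x y (fun h => absurd h hR) (fun h => absurd h hT))
    · exact g.good_BB x y (fun h => absurd h hP) (fun h => absurd h hQ)

/-- A gadget on `Fin m` gives a correct scheme for sets of size at most two. -/
theorem spaceOK {m a b c : ℕ} (g : Gadget (Fin m) (Fin a) (Fin b) (Fin c)) :
    SpaceOK 2 m (a + b + c) := by
  classical
  have key : ∀ S : {S : Finset (Fin m) // S.card ≤ 2},
      ∃ (α : Fin a → Bool) (β : Fin b → Bool) (γ : Fin c → Bool), ∀ e : Fin m,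
        ((if α (g.pa e) = false then β (g.pb e) else γ (g.pc e)) = true ↔ e ∈ S.1) := by
    rintro ⟨S, hS⟩
    have h3 : S.card = 0 ∨ S.card = 1 ∨ S.card = 2 := by omega
    rcases h3 with h | h | h
    · rw [Finset.card_eq_zero] at h
      subst h
      exact ⟨fun _ => false, fun _ => false, fun _ => false, fun e => by simp⟩
    · rw [Finset.card_eq_one] at h
      obtain ⟨x, rfl⟩ := h
      obtain ⟨α, β, γ, h⟩ := g.good x x
      exact ⟨α, β, γ, fun e => (h e).trans (by simp)⟩
    · rw [Finset.card_eq_two] at h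
      obtain ⟨x, y, -, rfl⟩ := h
      obtain ⟨α, β, γ, h⟩ := g.good x y
      exact ⟨α, β, γ, fun e => (h e).trans (by simp)⟩
  choose α β γ h using key
  exact ⟨a, b, c, rfl, ⟨g.pa, g.pb, g.pc, α, β, γ⟩, fun S e => h S e⟩

end Gadget

end Pool.Agent.H.MP_b7335c_lc
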