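import Mathlib
import Pool.Agent.H.MP_b7335c_lc.Gadget

/-!
# The base gadget: 36 elements, tables with 12, 9 and 9 cells

It is the coset gadget of `S₃ × S₃` with the subgroups `{(ρ^k, ρ^{-k})}`, `⟨s⟩ × ⟨s⟩`,
`⟨sρ⟩ × ⟨sρ⟩`, written out as explicit tables.
-/

namespace Pool.Agent.H.MP_b7335c_lc

/-- positions in the second table -/
def tb : List ℕ := [0, 5, 7, 1, 5, 6, 0, 4, 8, 2, 4, 6, 1, 3, 8, 2, 3, 7, 2, 3, 7, 2, 4, 6, 1, 3,
  8, 1, 5, 6, 0, 4, 8, 0, 5, 7]

/-- positions in the third table -/
def tc : List ℕ := [0, 7, 5, 0, 8, 4, 1, 6, 5, 1, 8, 3, 2, 6, 4, 2, 7, 3, 4, 0, 8, 5, 0, 7, 3, 1,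
  8, 5, 1, 6, 3, 2, 7, 4, 2, 6]

def nb (e : ℕ) : ℕ := tb.getD e 0
def nc (e : ℕ) : ℕ := tc.getD e 0

/-- block `i` meets cell `b` of the second table -/
def meetB (i b : ℕ) : Bool := nb (3 * i) == b || nb (3 * i + 1) == b || nb (3 * i + 2) == b

/-- block `i` meets cell `c` of the third table -/
def meetC (i c : ℕ) : Bool := nc (3 * i) == c || nc (3 * i + 1) == c || nc (3 * i + 2) == c

theorem check_bound : ((List.range 36).all fun x => decide (nb x < 9) && decide (nc x < 9)) = true := by
  decide +kernel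

theorem check_match : ((List.range 36).all fun x => (List.range 36).all fun y =>
    (! (x / 3 == y / 3) || x == y || (! (nb x == nb y) && ! (nc x == nc y)))) = true := by
  decide +kernel

theorem check_tpp : ((List.range 36).all fun x => (List.range 12).all fun i =>
    (! (meetB i (nb x)) || ! (meetC i (nc x)) || i == x / 3)) = true := by
  decide +kernel

theorem check_free : ((List.range 36).all fun x => (List.range 36).all fun y =>
    (x / 3 == y / 3 || ! (meetB (x / 3) (nb y)) || ! (meetC (y / 3) (nc x)) ||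
      (List.range 12).all fun i => (! (meetB i (nb x)) || ! (meetC i (nc y))))) = true := by
  decide +kernel

theorem meetB_of {x y : ℕ} (h : nb x = y) : meetB (x / 3) y = true := by
  subst h
  have h3 : x = 3 * (x / 3) ∨ x = 3 * (x / 3) + 1 ∨ x = 3 * (x / 3) + 2 := by omega
  simp only [meetB, Bool.or_eq_true, beq_iff_eq]
  rcases h3 with h | h | h
  · left; left; exact congrArg nb h.symm
  · left; right; exact congrArg nb h.symm
  · right; exact congrArg nb h.symm

theorem meetC_of {x y : ℕ} (h : nc x = y) : meetC (x / 3) y = true := by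
  subst h
  have h3 : x = 3 * (x / 3) ∨ x = 3 * (x / 3) + 1 ∨ x = 3 * (x / 3) + 2 := by omega
  simp only [meetC, Bool.or_eq_true, beq_iff_eq]
  rcases h3 with h | h | h
  · left; left; exact congrArg nc h.symm
  · left; right; exact congrArg nc h.symm
  · right; exact congrArg nc h.symm

theorem nb_lt (x : Fin 36) : nb x < 9 := by
  have := check_bound
  rw [List.all_eq_true] at this
  have := this x (List.mem_range.2 x.2)
  simp only [Bool.and_eq_true, decide_eq_true_eq] at this
  exact this.1

theorem nc_lt (x : Fin 36) : nc x < 9 := by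
  have := check_bound
  rw [List.all_eq_true] at this
  have := this x (List.mem_range.2 x.2)
  simp only [Bool.and_eq_true, decide_eq_true_eq] at this
  exact this.2

theorem match_aux (x y : Fin 36) (h : x.1 / 3 = y.1 / 3) : x = y ∨ (nb x ≠ nb y ∧ nc x ≠ nc y) := by
  have := check_match
  rw [List.all_eq_true] at this
  have := this x (List.mem_range.2 x.2)
  rw [List.all_eq_true] at this
  have := this y (List.mem_range.2 y.2)
  simp only [Bool.or_eq_true, Bool.and_eq_true, Bool.not_eq_true', beq_eq_false_iff_ne, ne_eq,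
    beq_iff_eq] at this
  rcases this with (h1 | h1) | h1
  · exact absurd h h1
  · left; exact Fin.ext h1
  · right; exact h1

theorem tpp_aux (x y z : Fin 36) (h1 : nb y = nb x) (h2 : nc z = nc x)
    (h3 : y.1 / 3 = z.1 / 3) : y.1 / 3 = x.1 / 3 := by
  have := check_tpp
  rw [List.all_eq_true] at this
  have := this x (List.mem_range.2 x.2)
  rw [List.all_eq_true] at this
  have := this (y.1 / 3) (List.mem_range.2 (by omega))
  have e1 := meetB_of h1
  have e2 := meetC_of h2
  rw [← h3] at e2
  simpa [e1, e2] using this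

theorem free_aux (x y z w u v : Fin 36) (h1 : z.1 / 3 = x.1 / 3) (h2 : nb z = nb y)
    (h3 : w.1 / 3 = y.1 / 3) (h4 : nc w = nc x) (h5 : u.1 / 3 = v.1 / 3)
    (h6 : nb u = nb x) (h7 : nc v = nc y) : x.1 / 3 = y.1 / 3 := by
  have := check_free
  rw [List.all_eq_true] at this
  have := this x (List.mem_range.2 x.2)
  rw [List.all_eq_true] at this
  have := this y (List.mem_range.2 y.2)
  have e1 := meetB_of h2
  have e2 := meetC_of h4
  have e3 := meetB_of h6
  have e4 := meetC_of h7
  rw [h1] at e1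
  rw [h3] at e2
  rw [← h5] at e4
  rw [e1, e2] at this
  simp only [Bool.not_true, Bool.or_false, Bool.or_eq_true, beq_iff_eq] at this
  rcases this with h | h
  · exact h
  · rw [List.all_eq_true] at h
    have := h (u.1 / 3) (List.mem_range.2 (by omega))
    simp [e3, e4] at this

/-- The base gadget. -/
def base : Gadget (Fin 36) (Fin 12) (Fin 9) (Fin 9) where
  pa := fun e => ⟨e.1 / 3, by omega⟩
  pb := fun e => ⟨nb e, nb_lt e⟩
  pc := fun e => ⟨nc e, nc_lt e⟩
  matchB := fun x y h1 h2 => by
    rcases match_aux x y (Fin.mk.inj_iff.1 h1) with h | h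
    · exact h
    · exact absurd (Fin.mk.inj_iff.1 h2) h.1
  matchC := fun x y h1 h2 => by
    rcases match_aux x y (Fin.mk.inj_iff.1 h1) with h | h
    · exact h
    · exact absurd (Fin.mk.inj_iff.1 h2) h.2
  tpp := fun x y z h1 h2 h3 => Fin.mk.inj_iff.2
    (tpp_aux x y z (Fin.mk.inj_iff.1 h1) (Fin.mk.inj_iff.1 h2) (Fin.mk.inj_iff.1 h3))
  free := fun x y z w u v h1 h2 h3 h4 h5 h6 h7 => Fin.mk.inj_iff.2
    (free_aux x y z w u v (Fin.mk.inj_iff.1 h1) (Fin.mk.inj_iff.1 h2) (Fin.mk.inj_iff.1 h3)
      (Fin.mk.inj_iff.1 h4) (Fin.mk.inj_iff.1 h5) (Fin.mk.inj_iff.1 h6) (Fin.mk.inj_iff.1 h7))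

/-- A gadget on types gives a gadget on `Fin`s, for any smaller universe and larger tables. -/
theorem exists_fin {E A B C : Type} [Fintype E] [Fintype A] [Fintype B] [Fintype C]
    (g : Gadget E A B C) {m a b c : ℕ} (hm : m ≤ Fintype.card E) (ha : Fintype.card A ≤ a)
    (hb : Fintype.card B ≤ b) (hc : Fintype.card C ≤ c) :
    Nonempty (Gadget (Fin m) (Fin a) (Fin b) (Fin c)) := by
  have hm' : Fintype.card (Fin m) ≤ Fintype.card E := by simpa using hm
  have ha' : Fintype.card A ≤ Fintype.card (Fin a) := by simpa using ha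
  have hb' : Fintype.card B ≤ Fintype.card (Fin b) := by simpa using hb
  have hc' : Fintype.card C ≤ Fintype.card (Fin c) := by simpa using hc
  obtain ⟨f⟩ := Function.Embedding.nonempty_of_card_le hm'
  obtain ⟨fa⟩ := Function.Embedding.nonempty_of_card_le ha'
  obtain ⟨fb⟩ := Function.Embedding.nonempty_of_card_le hb'
  obtain ⟨fc⟩ := Function.Embedding.nonempty_of_card_le hc'
  exact ⟨g.pull f f.injective fa fa.injective fb fb.injective fc fc.injective⟩

/-- Powers of the base gadget, times one matching block of size `W`. -/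
theorem exists_power (n W : ℕ) :
    Nonempty (Gadget (Fin (36 ^ n * W)) (Fin (12 ^ n)) (Fin (9 ^ n * W)) (Fin (9 ^ n * W))) := by
  induction n with
  | zero =>
    apply exists_fin (Gadget.single (Fin W)) <;> simp
  | succ n ih =>
    obtain ⟨g⟩ := ih
    apply exists_fin (g.prod base) <;>
      simp only [Fintype.card_prod, Fintype.card_fin, pow_succ] <;> apply le_of_eq <;> ring

/-- The resulting schemes. -/
theorem spaceOK_power {m n W : ℕ} (hm : m ≤ 36 ^ n * W) :
    SpaceOK 2 m (12 ^ n + 9 ^ n * W + 9 ^ n * W) := by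
  obtain ⟨g⟩ := exists_power n W
  have : Nonempty (Gadget (Fin m) (Fin (12 ^ n)) (Fin (9 ^ n * W)) (Fin (9 ^ n * W))) := by
    apply exists_fin g <;> simp [hm]
  obtain ⟨g'⟩ := this
  exact g'.spaceOK

end Pool.Agent.H.MP_b7335c_lc
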