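import Mathlib
import Pool.Agent.H.MP_b7335c_lc.Defs
import Pool.Agent.H.MP_b7335c_lc.Base

/-!
# `s_A(2, m, 2)` is not `Ω(m^{2/3})`

For every `m ≥ 1` there is a correct adaptive two-probe scheme for subsets of size at most `2`
with at most `60 * m ^ γ` bits, `γ = log 12 / log 48 ≈ 0.6419 < 2/3`.
-/

namespace Pool.Agent.H.MP_b7335c_lc.Disproof

open Pool.Agent.H.MP_b7335c_lc

theorem gamma_lt : Real.log 12 / Real.log 48 < 2 / 3 := by
  have h48 : 0 < Real.log 48 := Real.log_pos (by norm_num)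
  rw [div_lt_div_iff₀ h48 (by norm_num)]
  have h1 : Real.log 12 * 3 = Real.log (12 ^ 3 : ℝ) := by
    rw [Real.log_pow]; push_cast; ring
  have h2 : 2 * Real.log 48 = Real.log (48 ^ 2 : ℝ) := by
    rw [Real.log_pow]; push_cast; ring
  rw [h1, h2]
  exact Real.log_lt_log (by norm_num) (by norm_num)

/-- the explicit schemes -/
theorem exists_space (m : ℕ) (n : ℕ) (hm : m ≤ 48 ^ n) :
    ∃ s : ℕ, SpaceOK 2 m s ∧ s ≤ 5 * 12 ^ n := by
  set W : ℕ := 4 ^ n / 3 ^ n + 1 with hW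
  have h3 : 0 < 3 ^ n := by positivity
  have hlow : 4 ^ n ≤ 3 ^ n * W := (Nat.lt_mul_div_succ (4 ^ n) h3).le
  have hup : 3 ^ n * (4 ^ n / 3 ^ n) ≤ 4 ^ n := Nat.mul_div_le _ _
  have h12 : (12 : ℕ) ^ n = 3 ^ n * 4 ^ n := by rw [← mul_pow]; norm_num
  have h9 : (9 : ℕ) ^ n = 3 ^ n * 3 ^ n := by rw [← mul_pow]; norm_num
  have h36 : (36 : ℕ) ^ n = 12 ^ n * 3 ^ n := by rw [← mul_pow]; norm_num
  have h48 : (48 : ℕ) ^ n = 12 ^ n * 4 ^ n := by rw [← mul_pow]; norm_num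
  refine ⟨12 ^ n + 9 ^ n * W + 9 ^ n * W, spaceOK_power ?_, ?_⟩
  · calc m ≤ 48 ^ n := hm
      _ = 12 ^ n * 4 ^ n := h48
      _ ≤ 12 ^ n * (3 ^ n * W) := Nat.mul_le_mul_left _ hlow
      _ = 36 ^ n * W := by rw [h36, mul_assoc]
  · have h9W : 9 ^ n * W ≤ 2 * 12 ^ n := by
      calc 9 ^ n * W = 3 ^ n * (3 ^ n * (4 ^ n / 3 ^ n)) + 9 ^ n := by
            rw [hW, mul_add, mul_one, h9, mul_assoc]
        _ ≤ 3 ^ n * 4 ^ n + 12 ^ n :=
            Nat.add_le_add (Nat.mul_le_mul_left _ hup) (Nat.pow_le_pow_left (by norm_num) n)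
        _ = 2 * 12 ^ n := by rw [← h12]; ring
    omega

theorem twelve_pow_le (m : ℕ) (hm : 1 ≤ m) :
    ((12 : ℝ) ^ (Nat.clog 48 m)) ≤ 12 * (m : ℝ) ^ (Real.log 12 / Real.log 48) := by
  have hmR : (1 : ℝ) ≤ m := by exact_mod_cast hm
  have h48 : 0 < Real.log 48 := Real.log_pos (by norm_num)
  have h12 : 0 < Real.log 12 := Real.log_pos (by norm_num)
  have hg : 0 ≤ Real.log 12 / Real.log 48 := by positivity
  rcases Nat.eq_zero_or_pos (Nat.clog 48 m) with h0 | hpos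
  · rw [h0, pow_zero]
    have : (1 : ℝ) ≤ (m : ℝ) ^ (Real.log 12 / Real.log 48) := Real.one_le_rpow hmR hg
    linarith
  · obtain ⟨k, hk⟩ : ∃ k, Nat.clog 48 m = k + 1 := ⟨Nat.clog 48 m - 1, by omega⟩
    have hlt : 48 ^ k < m := by
      by_contra hcon
      have : Nat.clog 48 m ≤ k := (Nat.clog_le_iff_le_pow (by norm_num)).2 (not_lt.1 hcon)
      omega
    have hltR : ((48 : ℝ) ^ k) ≤ m := by exact_mod_cast hlt.le
    have key : ((12 : ℝ) ^ k) ≤ (m : ℝ) ^ (Real.log 12 / Real.log 48) := by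
      have h1 : ((48 : ℝ) ^ k) ^ (Real.log 12 / Real.log 48) = (12 : ℝ) ^ k := by
        rw [← Real.rpow_natCast, ← Real.rpow_natCast, ← Real.rpow_mul (by norm_num),
          mul_comm, Real.rpow_mul (by norm_num)]
        congr 1
        rw [Real.rpow_def_of_pos (by norm_num), mul_div_cancel₀ _ h48.ne',
          Real.exp_log (by norm_num)]
      rw [← h1]
      exact Real.rpow_le_rpow (by positivity) hltR hg
    rw [hk, pow_succ]
    linarith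

theorem space_bound (m : ℕ) (hm : 1 ≤ m) :
    SpaceOK 2 m (sA 2 m) ∧
      (sA 2 m : ℝ) ≤ 60 * (m : ℝ) ^ (Real.log 12 / Real.log 48) := by
  obtain ⟨s, hs, hs'⟩ := exists_space m (Nat.clog 48 m) (Nat.le_pow_clog (by norm_num) m)
  have hne : {s : ℕ | SpaceOK 2 m s}.Nonempty := ⟨s, hs⟩
  refine ⟨Nat.sInf_mem hne, ?_⟩
  have h1 : sA 2 m ≤ s := Nat.sInf_le hs
  have h2 : (sA 2 m : ℝ) ≤ 5 * (12 : ℝ) ^ (Nat.clog 48 m) := by
    exact_mod_cast h1.trans hs'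
  have := twelve_pow_le m hm
  linarith

/-- **Main theorem.** The minimum space `s_A(2, m, 2)` is at most `60 * m ^ (log 12 / log 48)`
for every `m ≥ 1` (and it is attained by a correct scheme), where `log 12 / log 48 < 2 / 3`.
In particular `s_A(2, m, 2)` is not `Ω(m ^ (2/3))`. -/
theorem result :
    (∀ m : ℕ, 1 ≤ m → SpaceOK 2 m (sA 2 m) ∧
      (sA 2 m : ℝ) ≤ 60 * (m : ℝ) ^ (Real.log 12 / Real.log 48)) ∧
    Real.log 12 / Real.log 48 < 2 / 3 ∧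
    ¬ ∃ c : ℝ, 0 < c ∧
      ∀ᶠ m : ℕ in Filter.atTop, c * (m : ℝ) ^ (2 / 3 : ℝ) ≤ (sA 2 m : ℝ) := by
  refine ⟨space_bound, gamma_lt, ?_⟩
  rintro ⟨c, hc, h⟩
  set γ : ℝ := Real.log 12 / Real.log 48 with hγ
  have hδ : 0 < 2 / 3 - γ := by have := gamma_lt; rw [← hγ] at this; linarith
  have htend : Filter.Tendsto (fun m : ℕ => (m : ℝ) ^ (2 / 3 - γ)) Filter.atTop Filter.atTop :=
    (tendsto_rpow_atTop hδ).comp tendsto_natCast_atTop_atTop
  have hev := htend.eventually_gt_atTop (60 / c)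
  obtain ⟨m, ⟨h1, h2⟩, h3⟩ := ((h.and hev).and (Filter.eventually_ge_atTop 1)).exists
  have hm : (0 : ℝ) < m := by exact_mod_cast h3
  have h4 := (space_bound m h3).2
  rw [← hγ] at h4
  have h5 : (m : ℝ) ^ (2 / 3 : ℝ) = (m : ℝ) ^ (2 / 3 - γ) * (m : ℝ) ^ γ := by
    rw [← Real.rpow_add hm]; congr 1; ring
  have hpos : 0 < (m : ℝ) ^ γ := Real.rpow_pos_of_pos hm γ
  have h6 : 60 < c * (m : ℝ) ^ (2 / 3 - γ) := by
    rw [div_lt_iff₀ hc] at h2; linarith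
  have h7 : 60 * (m : ℝ) ^ γ < c * (m : ℝ) ^ (2 / 3 - γ) * (m : ℝ) ^ γ :=
    mul_lt_mul_of_pos_right h6 hpos
  rw [h5] at h1
  linarith

end Pool.Agent.H.MP_b7335c_lc.Disproof
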