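import Pool.Agent.H.MP_b7335c_lc.RookGadget

/-!
# Powers of the rook gadget: the number of bits
-/

namespace Pool.Agent.H.MP_b7335c_lc

/-- There are position maps into tables with `a`, `b`, `c` bits that store all sets of size at
most `n` over a universe with `m` elements. -/
def HasTables (n m a b c : ℕ) : Prop :=
  ∃ (A : Fin m → Fin a) (B : Fin m → Fin b) (C : Fin m → Fin c), Stores A B C n

/-- Strong maps out of a universe of size at least `m` give tables. -/
lemma Strong.hasTables {U α β γ : Type} [Fintype U] [Fintype α] [Fintype β] [Fintype γ]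
    {A : U → α} {B : U → β} {C : U → γ} (h : Strong A B C) {m : ℕ} (hm : m ≤ Fintype.card U) :
    HasTables 2 m (Fintype.card α) (Fintype.card β) (Fintype.card γ) := by
  classical
  let f : Fin m → U := fun i => (Fintype.equivFin U).symm (Fin.castLE hm i)
  have hf : Function.Injective f :=
    (Fintype.equivFin U).symm.injective.comp (Fin.castLE_injective hm)
  exact ⟨_, _, _, ((h.comp hf).map (Fintype.equivFin α).injective
    (Fintype.equivFin β).injective (Fintype.equivFin γ).injective).stores_two⟩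

/-- The tables from the `d`-th power of the rook gadget with an additional coordinate of size
`x`. -/
lemma hasTables_power (d x m : ℕ) (hm : m ≤ 96 ^ d * x) :
    HasTables 2 m (24 ^ d) (16 ^ d * x) (16 ^ d * x) := by
  have h := (Strong.pi (fun _ : Fin d => strong_rook)).extend (Fin x)
  have h2 := h.hasTables (m := m) (by
    simp only [Fintype.card_prod, Fintype.card_pi, Finset.prod_const, Finset.card_univ,
      Fintype.card_fin, Fintype.card_bool, card_off]
    simpa using hm)
  simpa only [Fintype.card_prod, Fintype.card_pi, Finset.prod_const, Finset.card_univ,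
      Fintype.card_fin, Fintype.card_bool, card_off, Nat.reduceMul] using h2

/-- For every `d` and every `m ≤ 144 ^ d` there is a scheme with at most `5 · 24 ^ d` bits. -/
lemma exists_tables (d m : ℕ) (hm : m ≤ 144 ^ d) :
    ∃ a b c, a + b + c ≤ 5 * 24 ^ d ∧ HasTables 2 m a b c := by
  have h16 : 0 < 16 ^ d := by positivity
  set x := (24 ^ d + 16 ^ d - 1) / 16 ^ d with hx
  have h1 : 24 ^ d ≤ 16 ^ d * x := by
    have h2 : 24 ^ d + 16 ^ d - 1 < 16 ^ d * (x + 1) := by
      rw [hx]
      exact Nat.lt_mul_div_succ _ h16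
    rw [mul_add, mul_one] at h2
    omega
  have h2 : 16 ^ d * x ≤ 24 ^ d + 16 ^ d - 1 := Nat.mul_div_le _ _
  have h3 : 16 ^ d ≤ 24 ^ d := Nat.pow_le_pow_left (by norm_num) d
  refine ⟨24 ^ d, 16 ^ d * x, 16 ^ d * x, by omega, hasTables_power d x m (hm.trans ?_)⟩
  calc 144 ^ d = 6 ^ d * 24 ^ d := by rw [← mul_pow]; norm_num
    _ ≤ 6 ^ d * (16 ^ d * x) := Nat.mul_le_mul_left _ h1
    _ = 96 ^ d * x := by rw [← mul_assoc, ← mul_pow]; norm_num

/-- `24 ^ d = (144 ^ d) ^ θ` with `θ = log 24 / log 144`. -/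
lemma rpow_theta (d : ℕ) : ((144 ^ d : ℝ)) ^ (Real.log 24 / Real.log 144) = 24 ^ d := by
  have h144 : Real.log 144 ≠ 0 := (Real.log_pos (by norm_num)).ne'
  rw [Real.rpow_def_of_pos (by positivity), Real.log_pow]
  rw [show (d : ℝ) * Real.log 144 * (Real.log 24 / Real.log 144) = d * Real.log 24 by
    field_simp]
  rw [← Real.log_pow, Real.exp_log (by positivity)]

/-- For every `m ≥ 1` there is a scheme with at most `120 · m ^ θ` bits. -/
theorem exists_tables_rpow (m : ℕ) (hm : 1 ≤ m) :
    ∃ a b c, ((a + b + c : ℕ) : ℝ) ≤ 120 * (m : ℝ) ^ (Real.log 24 / Real.log 144) ∧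
      HasTables 2 m a b c := by
  have hm' : (1 : ℝ) ≤ m := by exact_mod_cast hm
  have hθ : 0 ≤ Real.log 24 / Real.log 144 := by
    apply div_nonneg <;> exact Real.log_nonneg (by norm_num)
  obtain ⟨a, b, c, h1, h2⟩ := exists_tables (Nat.clog 144 m) m (Nat.le_pow_clog (by norm_num) m)
  refine ⟨a, b, c, ?_, h2⟩
  have h3 : (24 ^ Nat.clog 144 m : ℝ) ≤ 24 * (m : ℝ) ^ (Real.log 24 / Real.log 144) := by
    rcases Nat.eq_zero_or_pos (Nat.clog 144 m) with h0 | h0
    · rw [h0, pow_zero]
      have := Real.one_le_rpow hm' hθ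
      linarith
    · obtain ⟨d, hd⟩ := Nat.exists_eq_succ_of_ne_zero h0.ne'
      have h4 : 144 ^ d < m := by
        by_contra h5
        have := Nat.clog_le_of_le_pow (not_lt.1 h5)
        omega
      have h5 : ((144 ^ d : ℝ)) ≤ m := by exact_mod_cast h4.le
      have h6 := Real.rpow_le_rpow (by positivity) h5 hθ
      rw [rpow_theta] at h6
      rw [hd, pow_succ]
      linarith
  have h4 : ((a + b + c : ℕ) : ℝ) ≤ 5 * 24 ^ Nat.clog 144 m := by exact_mod_cast h1
  linarith

/-- `log 24 / log 144 < 16 / 25`. -/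
lemma theta_lt : Real.log 24 / Real.log 144 < 16 / 25 := by
  have h144 : 0 < Real.log 144 := Real.log_pos (by norm_num)
  rw [div_lt_div_iff₀ h144 (by norm_num)]
  have h : Real.log ((24 : ℝ) ^ 25) < Real.log ((144 : ℝ) ^ 16) :=
    Real.log_lt_log (by norm_num) (by norm_num)
  rw [Real.log_pow, Real.log_pow] at h
  push_cast at h
  linarith

end Pool.Agent.H.MP_b7335c_lc
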