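import Pool.Agent.H.MP_b7335c_lc.Strong

/-!
# The rook gadget and its powers

The elements of the gadget are the pairs `(b, c)` of squares of a `4 × 4` board which differ in
exactly one coordinate.  The block of such a pair records which coordinate changes, together with
its old and its new value.
-/

namespace Pool.Agent.H.MP_b7335c_lc

/-- Ordered pairs of distinct elements of `Fin 4`. -/
abbrev Off : Type := {p : Fin 4 × Fin 4 // p.1 ≠ p.2}

/-- The elements of the gadget: direction, unchanged coordinate, changed coordinate (old, new). -/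
abbrev Rook : Type := Bool × Fin 4 × Off

/-- The block: direction and changed coordinate. -/
def rookA (e : Rook) : Bool × Off := (e.1, e.2.2)

/-- The old square. -/
def rookB (e : Rook) : Fin 4 × Fin 4 :=
  if e.1 = true then (e.2.2.1.1, e.2.1) else (e.2.1, e.2.2.1.1)

/-- The new square. -/
def rookC (e : Rook) : Fin 4 × Fin 4 :=
  if e.1 = true then (e.2.2.1.2, e.2.1) else (e.2.1, e.2.2.1.2)

lemma strong_rook : Strong rookA rookB rookC where
  injB := by
    rintro ⟨d, s, p⟩ ⟨d', s', p'⟩ h1 h2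
    simp only [rookA, Prod.mk.injEq] at h1
    obtain ⟨rfl, rfl⟩ := h1
    cases d <;> simp [rookB] at h2 <;> simp [h2]
  injC := by
    rintro ⟨d, s, p⟩ ⟨d', s', p'⟩ h1 h2
    simp only [rookA, Prod.mk.injEq] at h1
    obtain ⟨rfl, rfl⟩ := h1
    cases d <;> simp [rookC] at h2 <;> simp [h2]
  rule := by
    rintro ⟨d, s, ⟨⟨p, q⟩, hp⟩⟩ ⟨d', s', ⟨⟨p', q'⟩, hp'⟩⟩ ⟨d1, s1, ⟨⟨p1, q1⟩, hp1⟩⟩
      ⟨d2, s2, ⟨⟨p2, q2⟩, hp2⟩⟩ ⟨d3, s3, ⟨⟨p3, q3⟩, hp3⟩⟩ ⟨d4, s4, ⟨⟨p4, q4⟩, hp4⟩⟩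
      h1 h2 h3 h4 h5 h6 h7
    simp only [rookA, Prod.mk.injEq, Subtype.mk.injEq] at h1 h3 h5 ⊢
    obtain ⟨rfl, rfl, rfl⟩ := h1
    obtain ⟨rfl, rfl, rfl⟩ := h3
    obtain ⟨rfl, rfl, rfl⟩ := h5
    simp only [ne_eq] at hp3
    cases d1 <;> cases d2 <;> cases d3 <;>
      simp only [rookB, rookC, Bool.false_eq_true, if_false, if_true, Prod.mk.injEq] at h2 h4 h6 h7
    all_goals first
      | (obtain ⟨h2, h2'⟩ := h2; obtain ⟨h4, h4'⟩ := h4; simp [h2, h2', h4, h4']; done)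
      | (exfalso; apply hp3; obtain ⟨h2, h2'⟩ := h2; obtain ⟨h4, h4'⟩ := h4
         obtain ⟨h6, h6'⟩ := h6; obtain ⟨h7, h7'⟩ := h7; simp_all; done)

lemma card_off : Fintype.card Off = 12 := by decide

end Pool.Agent.H.MP_b7335c_lc
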