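import Mathlib

/-!
# Two-probe schemes from strong triples of position maps

`Strong A B C` is a condition on three maps `A : U → α`, `B : U → β`, `C : U → γ` which is
inherited by sub-universes and by (infinite) products, and which implies that the adaptive
two-probe scheme with position maps `A, B, C` stores all subsets of `U` of size at most `2`.
-/

namespace Pool.Agent.H.MP_b7335c_lc

universe u v w x

/-- The strong condition: blocks (the fibres of `A`) are matchings between the values of `B` and
the values of `C`; and if `x`, `y` are elements such that the block of `y` contains an element with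
the `B`-position of `x`, the block of `x` contains an element with the `C`-position of `y`, and
some block contains both the `B`-position of `y` and the `C`-position of `x`, then `x` and `y` are
in the same block. -/
structure Strong {U : Type*} {α β γ : Type*} (A : U → α) (B : U → β) (C : U → γ) : Prop where
  injB : ∀ x y, A x = A y → B x = B y → x = y
  injC : ∀ x y, A x = A y → C x = C y → x = y
  rule : ∀ x y z z' u u', A z = A y → B z = B x → A z' = A x → C z' = C y →
    A u = A u' → B u = B y → C u' = C x → A x = A y

/-- The value read by the two probes. -/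
def answer {U α β γ : Type*} (A : U → α) (B : U → β) (C : U → γ)
    (fA : α → Bool) (fB : β → Bool) (fC : γ → Bool) (e : U) : Bool :=
  if fA (A e) = false then fB (B e) else fC (C e)

/-- The scheme with the given position maps stores every set of size at most `n`. -/
def Stores {U α β γ : Type*} (A : U → α) (B : U → β) (C : U → γ) (n : ℕ) : Prop :=
  ∀ S : Finset U, S.card ≤ n → ∃ (fA : α → Bool) (fB : β → Bool) (fC : γ → Bool),
    ∀ e : U, answer A B C fA fB fC e = true ↔ e ∈ S

namespace Strong

variable {U V α β γ α' β' γ' : Type*} {A : U → α} {B : U → β} {C : U → γ}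

/-- Restriction to a sub-universe. -/
lemma comp (h : Strong A B C) {f : V → U} (hf : Function.Injective f) :
    Strong (A ∘ f) (B ∘ f) (C ∘ f) where
  injB x y h1 h2 := hf (h.injB _ _ h1 h2)
  injC x y h1 h2 := hf (h.injC _ _ h1 h2)
  rule x y z z' u u' h1 h2 h3 h4 h5 h6 h7 :=
    h.rule (f x) (f y) (f z) (f z') (f u) (f u') h1 h2 h3 h4 h5 h6 h7

/-- Renaming of the positions. -/
lemma map (h : Strong A B C) {a : α → α'} {b : β → β'} {c : γ → γ'}
    (ha : Function.Injective a) (hb : Function.Injective b) (hc : Function.Injective c) :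
    Strong (a ∘ A) (b ∘ B) (c ∘ C) where
  injB x y h1 h2 := h.injB _ _ (ha h1) (hb h2)
  injC x y h1 h2 := h.injC _ _ (ha h1) (hc h2)
  rule x y z z' u u' h1 h2 h3 h4 h5 h6 h7 :=
    congrArg a (h.rule x y z z' u u' (ha h1) (hb h2) (ha h3) (hc h4) (ha h5) (hb h6) (hc h7))

/-- Products of strong triples are strong. -/
lemma pi {ι : Type*} {U α β γ : ι → Type*} {A : ∀ k, U k → α k} {B : ∀ k, U k → β k}
    {C : ∀ k, U k → γ k} (h : ∀ k, Strong (A k) (B k) (C k)) :
    Strong (fun (w : ∀ k, U k) k => A k (w k)) (fun (w : ∀ k, U k) k => B k (w k))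
      (fun (w : ∀ k, U k) k => C k (w k)) where
  injB x y h1 h2 := funext fun k => (h k).injB _ _ (congrFun h1 k) (congrFun h2 k)
  injC x y h1 h2 := funext fun k => (h k).injC _ _ (congrFun h1 k) (congrFun h2 k)
  rule x y z z' u u' h1 h2 h3 h4 h5 h6 h7 := funext fun k =>
    (h k).rule (x k) (y k) (z k) (z' k) (u k) (u' k) (congrFun h1 k) (congrFun h2 k)
      (congrFun h3 k) (congrFun h4 k) (congrFun h5 k) (congrFun h6 k) (congrFun h7 k)

/-- An additional coordinate which is recorded in the second and in the third table only. -/
lemma extend (h : Strong A B C) (X : Type*) :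
    Strong (fun w : U × X => A w.1) (fun w : U × X => (B w.1, w.2))
      (fun w : U × X => (C w.1, w.2)) where
  injB x y h1 h2 := by
    obtain ⟨h2, h3⟩ := Prod.ext_iff.1 h2
    exact Prod.ext (h.injB _ _ h1 h2) h3
  injC x y h1 h2 := by
    obtain ⟨h2, h3⟩ := Prod.ext_iff.1 h2
    exact Prod.ext (h.injC _ _ h1 h2) h3
  rule x y z z' u u' h1 h2 h3 h4 h5 h6 h7 :=
    h.rule x.1 y.1 z.1 z'.1 u.1 u'.1 h1 (Prod.ext_iff.1 h2).1 h3 (Prod.ext_iff.1 h4).1 h5
      (Prod.ext_iff.1 h6).1 (Prod.ext_iff.1 h7).1

/-- A special case of the rule: if the block of `z` contains both the `B`-position and the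
`C`-position of `x`, it is the block of `x`. -/
lemma rule' (h : Strong A B C) {x z z' : U} (h1 : A z = A z') (h2 : B z = B x)
    (h3 : C z' = C x) : A x = A z' :=
  h.rule x z' z x z' z' h1 h2 rfl h3.symm rfl rfl h3

open Classical in
/-- The sets `{x, y}` can be stored. -/
lemma stores_pair (h : Strong A B C) (x y : U) :
    ∃ (fA : α → Bool) (fB : β → Bool) (fC : γ → Bool),
      ∀ e : U, answer A B C fA fB fC e = true ↔ (e = x ∨ e = y) := by
  by_cases hxy : A x = A y
  · -- same block
    refine ⟨fun a => decide (a ≠ A x), fun b => decide (b = B x ∨ b = B y), fun _ => false, ?_⟩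
    intro e
    by_cases he : A e = A x
    · simp only [answer, he, ne_eq, not_true_eq_false, decide_false, if_true, decide_eq_true_eq]
      constructor
      · rintro (h1 | h1)
        · exact Or.inl (h.injB _ _ he h1)
        · exact Or.inr (h.injB _ _ (he.trans hxy) h1)
      · rintro (h1 | h1)
        · exact Or.inl (by rw [h1])
        · exact Or.inr (by rw [h1])
    · simp only [answer, ne_eq, he, not_false_eq_true, decide_true, Bool.true_eq_false, if_false,
        Bool.false_eq_true, false_iff, not_or]
      constructor
      · rintro rfl; exact he rfl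
      · rintro rfl; exact he hxy.symm
  -- distinct blocks
  by_cases hBB : B x = B y ∨ ((¬ ∃ z, A z = A x ∧ B z = B y) ∧ ¬ ∃ z, A z = A y ∧ B z = B x)
  · refine ⟨fun a => decide (a ≠ A x ∧ a ≠ A y), fun b => decide (b = B x ∨ b = B y),
      fun _ => false, ?_⟩
    intro e
    by_cases he : A e = A x
    · simp only [answer, he, ne_eq, not_true_eq_false, false_and, decide_false, if_true,
        decide_eq_true_eq]
      constructor
      · rintro (h1 | h1)
        · exact Or.inl (h.injB _ _ he h1)
        · rcases hBB with h2 | ⟨h2, -⟩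
          · exact Or.inl (h.injB _ _ he (h1.trans h2.symm))
          · exact absurd ⟨e, he, h1⟩ h2
      · rintro (h1 | h1)
        · exact Or.inl (by rw [h1])
        · exact Or.inr (by rw [h1])
    · by_cases he' : A e = A y
      · simp only [answer, he', ne_eq, not_true_eq_false, and_false, decide_false, if_true,
          decide_eq_true_eq]
        constructor
        · rintro (h1 | h1)
          · rcases hBB with h2 | ⟨-, h2⟩
            · exact Or.inr (h.injB _ _ he' (h1.trans h2))
            · exact absurd ⟨e, he', h1⟩ h2
          · exact Or.inr (h.injB _ _ he' h1)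
        · rintro (h1 | h1)
          · exact Or.inl (by rw [h1])
          · exact Or.inr (by rw [h1])
      · simp only [answer, ne_eq, he, he', not_false_eq_true, and_self, decide_true,
          Bool.true_eq_false, if_false, Bool.false_eq_true, false_iff, not_or]
        constructor
        · rintro rfl; exact he rfl
        · rintro rfl; exact he' rfl
  by_cases hCC : C x = C y ∨ ((¬ ∃ z, A z = A x ∧ C z = C y) ∧ ¬ ∃ z, A z = A y ∧ C z = C x)
  · refine ⟨fun a => decide (a = A x ∨ a = A y), fun _ => false,
      fun c => decide (c = C x ∨ c = C y), ?_⟩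
    intro e
    by_cases he : A e = A x
    · simp only [answer, he, true_or, decide_true, Bool.true_eq_false, if_false,
        decide_eq_true_eq]
      constructor
      · rintro (h1 | h1)
        · exact Or.inl (h.injC _ _ he h1)
        · rcases hCC with h2 | ⟨h2, -⟩
          · exact Or.inl (h.injC _ _ he (h1.trans h2.symm))
          · exact absurd ⟨e, he, h1⟩ h2
      · rintro (h1 | h1)
        · exact Or.inl (by rw [h1])
        · exact Or.inr (by rw [h1])
    · by_cases he' : A e = A y
      · simp only [answer, he', or_true, decide_true, Bool.true_eq_false, if_false,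
          decide_eq_true_eq]
        constructor
        · rintro (h1 | h1)
          · rcases hCC with h2 | ⟨-, h2⟩
            · exact Or.inr (h.injC _ _ he' (h1.trans h2))
            · exact absurd ⟨e, he', h1⟩ h2
          · exact Or.inr (h.injC _ _ he' h1)
        · rintro (h1 | h1)
          · exact Or.inl (by rw [h1])
          · exact Or.inr (by rw [h1])
      · simp only [answer, he, he', or_self, decide_false, if_true, Bool.false_eq_true,
          false_iff, not_or]
        constructor
        · rintro rfl; exact he rfl
        · rintro rfl; exact he' rfl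
  -- `x` through the second table, `y` through the third one, or the other way round
  have key : ∀ x y : U, A x ≠ A y →
      (¬ ∃ z z', A z = A z' ∧ A z ≠ A x ∧ A z ≠ A y ∧ B z = B x ∧ C z' = C y) →
      ∃ (fA : α → Bool) (fB : β → Bool) (fC : γ → Bool),
        ∀ e : U, answer A B C fA fB fC e = true ↔ (e = x ∨ e = y) := by
    intro x y hxy hno
    refine ⟨fun a => if a = A x then false else if a = A y then true else
      decide (∃ z, A z = a ∧ B z = B x), fun b => decide (b = B x), fun c => decide (c = C y), ?_⟩
    intro e
    by_cases he : A e = A x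
    · simp only [answer, he, if_true, decide_eq_true_eq]
      constructor
      · intro h1
        exact Or.inl (h.injB _ _ he h1)
      · rintro (h1 | h1)
        · rw [h1]
        · exact absurd (by rw [← he, h1]) hxy
    · by_cases he' : A e = A y
      · simp only [answer, he', if_true, decide_eq_true_eq, (Ne.symm hxy : A y ≠ A x), if_false,
          Bool.true_eq_false]
        constructor
        · intro h1
          exact Or.inr (h.injC _ _ he' h1)
        · rintro (h1 | h1)
          · exact absurd (by rw [← he', h1]) hxy
          · rw [h1]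
      · have hne : ¬ (e = x ∨ e = y) := by
          rintro (rfl | rfl)
          · exact he rfl
          · exact he' rfl
        by_cases hz : ∃ z, A z = A e ∧ B z = B x
        · have hc : ¬ C e = C y := by
            intro hc
            obtain ⟨z, hz1, hz2⟩ := hz
            exact hno ⟨z, e, hz1, hz1 ▸ he, hz1 ▸ he', hz2, hc⟩
          simp only [answer, he, he', if_false, hz, decide_true, Bool.true_eq_false, hc,
            decide_false, Bool.false_eq_true, hne]
        · have hb : ¬ B e = B x := fun hb => hz ⟨e, rfl, hb⟩
          simp only [answer, he, he', if_false, hz, decide_false, if_true, hb,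
            Bool.false_eq_true, hne]
  by_cases hBC : ¬ ∃ z z', A z = A z' ∧ A z ≠ A x ∧ A z ≠ A y ∧ B z = B x ∧ C z' = C y
  · exact key x y hxy hBC
  by_cases hCB : ¬ ∃ z z', A z = A z' ∧ A z ≠ A y ∧ A z ≠ A x ∧ B z = B y ∧ C z' = C x
  · obtain ⟨fA, fB, fC, h1⟩ := key y x (Ne.symm hxy) hCB
    exact ⟨fA, fB, fC, fun e => (h1 e).trans or_comm⟩
  exfalso
  push Not at hBB hCC hBC hCB
  obtain ⟨u, u', hu1, -, -, hu2, hu3⟩ := hBC
  obtain ⟨t, t', ht1, -, -, ht2, ht3⟩ := hCB
  obtain ⟨-, hBB⟩ := hBB
  obtain ⟨-, hCC⟩ := hCC
  by_cases h1 : ∃ z, A z = A x ∧ B z = B y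
  · obtain ⟨z, hz1, hz2⟩ := h1
    by_cases h2 : ∃ z, A z = A x ∧ C z = C y
    · obtain ⟨z', hz1', hz2'⟩ := h2
      exact hxy ((h.rule' (hz1.trans hz1'.symm) hz2 hz2').trans hz1').symm
    · push Not at h2
      obtain ⟨z', hz1', hz2'⟩ := hCC h2
      exact hxy (h.rule y x z z' u u' hz1 hz2 hz1' hz2' hu1 hu2 hu3).symm
  · push Not at h1
    obtain ⟨z, hz1, hz2⟩ := hBB h1
    by_cases h2 : ∃ z, A z = A x ∧ C z = C y
    · obtain ⟨z', hz1', hz2'⟩ := h2
      exact hxy (h.rule x y z z' t t' hz1 hz2 hz1' hz2' ht1 ht2 ht3)
    · push Not at h2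
      obtain ⟨z', hz1', hz2'⟩ := hCC h2
      exact hxy ((h.rule' (hz1.trans hz1'.symm) hz2 hz2').trans hz1')

/-- A strong triple of position maps stores all sets of size at most two. -/
theorem stores_two (h : Strong A B C) : Stores A B C 2 := by
  classical
  intro S hS
  have h3 : S.card = 0 ∨ S.card = 1 ∨ S.card = 2 := by omega
  rcases h3 with h3 | h3 | h3
  · rw [Finset.card_eq_zero] at h3
    subst h3
    exact ⟨fun _ => false, fun _ => false, fun _ => false, fun e => by simp [answer]⟩
  · obtain ⟨x, rfl⟩ := Finset.card_eq_one.1 h3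
    obtain ⟨fA, fB, fC, h4⟩ := h.stores_pair x x
    exact ⟨fA, fB, fC, fun e => by rw [h4, Finset.mem_singleton, or_self]⟩
  · obtain ⟨x, y, -, rfl⟩ := Finset.card_eq_two.1 h3
    obtain ⟨fA, fB, fC, h4⟩ := h.stores_pair x y
    exact ⟨fA, fB, fC, fun e => by rw [h4, Finset.mem_insert, Finset.mem_singleton]⟩

end Strong

end Pool.Agent.H.MP_b7335c_lc
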